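import Mathlib
import Pool.Agent.BASets.Main

set_option autoImplicit false

open Cardinal

namespace Pool.Agent.Results.MP_4ec73f_lc.CountIsoTypes

/-- Isomorphism of Boolean algebras of sets of reals: a bijection preserving finite unions,
finite intersections and complements. -/
def Isomorphic (A B : BooleanSubalgebra (Set ℝ)) : Prop :=
  ∃ e : A ≃ B, (∀ s t : A, e (s ⊔ t) = e s ⊔ e t) ∧ (∀ s t : A, e (s ⊓ t) = e s ⊓ e t) ∧
    (∀ s : A, e sᶜ = (e s)ᶜ)

/-- The isomorphism relation on Boolean algebras of sets of reals. -/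
def isoSetoid : Setoid (BooleanSubalgebra (Set ℝ)) where
  r := Isomorphic
  iseqv := by
    refine ⟨fun A => ⟨Equiv.refl _, fun _ _ => rfl, fun _ _ => rfl, fun _ => rfl⟩, ?_, ?_⟩
    · rintro A B ⟨e, h1, h2, h3⟩
      refine ⟨e.symm, fun s t => ?_, fun s t => ?_, fun s => ?_⟩
      · apply e.injective; simp [h1]
      · apply e.injective; simp [h2]
      · apply e.injective; simp [h3]
    · rintro A B C ⟨e, h1, h2, h3⟩ ⟨e', h1', h2', h3'⟩
      refine ⟨e.trans e', fun s t => ?_, fun s t => ?_, fun s => ?_⟩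
      · simp [h1, h1']
      · simp [h2, h2']
      · simp [h3, h3']

/-- The number of isomorphism classes of Boolean algebras of sets of reals is `2 ^ (2 ^ 𝔠)`. -/
theorem result : #(Quotient isoSetoid) = 2 ^ (2 ^ 𝔠 : Cardinal.{0}) := by
  refine BASets.count isoSetoid ?_
  rintro A B ⟨e, h1, h2, _⟩
  refine ⟨{ toEquiv := e, map_rel_iff' := ?_ }⟩
  intro s t
  rw [← sup_eq_right, ← sup_eq_right (a := s), ← e.injective.eq_iff (a := s ⊔ t), h1]

end Pool.Agent.Results.MP_4ec73f_lc.CountIsoTypes
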